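import Mathlib
import Pool.Agent.Lib.MP_01b126_co.Main

/-!
Unimodular triangulations of the lattice rectangle: the proportion of regular ones tends to zero.
-/

set_option autoImplicit false

namespace Pool.Agent.Results.MP_01b126_co.RegularRare

/-- lattice points of the plane -/
abbrev Pt : Type := ℤ × ℤ

/-- the embedding of the lattice into the real plane -/
def emb (p : Pt) : ℝ × ℝ := ((p.1 : ℝ), (p.2 : ℝ))

/-- `P_{m,n} = {0,…,m} × {0,…,n}` -/
noncomputable def grid (m n : ℕ) : Finset Pt := Finset.Icc 0 (m : ℤ) ×ˢ Finset.Icc 0 (n : ℤ)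

/-- the rectangle `[0,m] × [0,n]` -/
def rect (m n : ℕ) : Set (ℝ × ℝ) := Set.Icc 0 (m : ℝ) ×ˢ Set.Icc 0 (n : ℝ)

/-- the closed convex hull in the real plane of a finite set of lattice points -/
def hull (t : Finset Pt) : Set (ℝ × ℝ) := convexHull ℝ (emb '' (t : Set Pt))

/-- twice the signed area of the triangle `a b c` -/
def area2 (a b c : Pt) : ℤ := (b.1 - a.1) * (c.2 - a.2) - (b.2 - a.2) * (c.1 - a.1)

/-- `T` (a finite set of triangles, each given by its set of vertices) is a unimodular
triangulation of `P_{m,n}`: a triangulation of `[0,m] × [0,n]` whose vertex set is `P_{m,n}`.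
The triangles are non-degenerate, they cover the rectangle, any two of them meet exactly in the
hull of their common vertices, and the vertices of the triangles are exactly the points of
`P_{m,n}`. -/
structure IsTriangulation (m n : ℕ) (T : Finset (Finset Pt)) : Prop where
  triangle : ∀ t ∈ T, ∃ a b c : Pt, t = {a, b, c} ∧ area2 a b c ≠ 0
  cover : ⋃ t ∈ T, hull t = rect m n
  face_to_face : ∀ t ∈ T, ∀ t' ∈ T, hull t ∩ hull t' = hull (t ∩ t')
  vertices : T.biUnion id = grid m n

/-- `S` is a domain of linearity of `h` in `R`: a convex subset of `R` with nonempty interior on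
which `h` agrees with an affine function -/
def IsLinearityDomain (h : ℝ × ℝ → ℝ) (R S : Set (ℝ × ℝ)) : Prop :=
  S ⊆ R ∧ Convex ℝ S ∧ (interior S).Nonempty ∧ ∃ A : (ℝ × ℝ) →ᵃ[ℝ] ℝ, Set.EqOn h A S

/-- `T` is a regular unimodular triangulation of `P_{m,n}`: there is a convex function on the
rectangle whose maximal domains of linearity are exactly the triangles of `T` -/
def IsRegular (m n : ℕ) (T : Finset (Finset Pt)) : Prop :=
  IsTriangulation m n T ∧ ∃ h : ℝ × ℝ → ℝ, ConvexOn ℝ (rect m n) h ∧
    {S | Maximal (IsLinearityDomain h (rect m n)) S} = {S | ∃ t ∈ T, S = hull t}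

/-- `f(m,n)`, the number of unimodular triangulations of `P_{m,n}` -/
noncomputable def f (m n : ℕ) : ℕ := {T : Finset (Finset Pt) | IsTriangulation m n T}.ncard

/-- `f^reg(m,n)`, the number of regular unimodular triangulations of `P_{m,n}` -/
noncomputable def freg (m n : ℕ) : ℕ := {T : Finset (Finset Pt) | IsRegular m n T}.ncard

theorem isTriangulation_iff (m n : ℕ) (T : Finset (Finset Pt)) :
    IsTriangulation m n T ↔ MP01b126.IsTriangulation m n T :=
  ⟨fun h => ⟨h.1, h.2, h.3, h.4⟩, fun h => ⟨h.1, h.2, h.3, h.4⟩⟩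

theorem f_eq (m n : ℕ) : f m n = MP01b126.f m n := by
  unfold f MP01b126.f
  congr 1
  ext T
  exact isTriangulation_iff m n T

theorem freg_eq (m n : ℕ) : freg m n = MP01b126.freg m n := by
  unfold freg MP01b126.freg
  congr 1
  ext T
  exact and_congr (isTriangulation_iff m n T) Iff.rfl

/-- For every `ε > 0` there is `N` such that for all `m, n ≥ N` fewer than `ε f(m,n)` of the
unimodular triangulations of `P_{m,n}` are regular. -/
theorem result : ∀ ε : ℝ, 0 < ε → ∃ N : ℕ, ∀ m n : ℕ, N ≤ m → N ≤ n →
    (freg m n : ℝ) < ε * (f m n : ℝ) := by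
  intro ε hε
  obtain ⟨N, hN⟩ := MP01b126.ratio hε
  refine ⟨N, fun m n hm hn => ?_⟩
  rw [f_eq, freg_eq]
  exact hN m n hm hn

end Pool.Agent.Results.MP_01b126_co.RegularRare
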